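import Pool.Agent.H343.QF.StQ

set_option autoImplicit false
set_option linter.unusedSectionVars false

/-! # MP_9a852a_al, R4: normalisation of a relator (helper549) -/

namespace Pool.Agent.H549.QF

open Pool.Agent.TH68 Pool.Agent.Helper97.Hyp Pool.Agent.H343.AN Pool.Agent.H343.QF

section words

variable {G : Type} [Group G]

/-- the partial products of a relator and the blocks -/
theorem Qp_eq (a c : G) (E l0 : ℕ) (t : ℕ) :
    Qp a c E l0 (t + 1) = a ^ ((l0 : ℤ) - E) * blk c (a ^ E) (t + 1) := by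
  induction t with
  | zero =>
    simp only [Qp, blk, lamt, if_pos, one_mul, zero_add, pow_one]
    rw [← zpow_natCast a l0, ← zpow_natCast a E, ← mul_assoc, ← zpow_add, sub_add_cancel]
  | succ t ih =>
    have e1 : Qp a c E l0 (t + 1 + 1) = Qp a c E l0 (t + 1) * a ^ lamt E l0 (t + 1) * c := rfl
    have e2 : blk c (a ^ E) (t + 1 + 1) = blk c (a ^ E) (t + 1) * ((a ^ E) ^ (t + 1 + 1) * c) := rfl
    have e3 : a ^ lamt E l0 (t + 1) = (a ^ E) ^ (t + 1 + 1) := by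
      rw [lamt, if_neg (Nat.succ_ne_zero t), ← pow_mul, mul_comm]
    rw [e1, e2, ih, e3]
    group

/-- the relator with `n + 2` blocks -/
theorem rho_eq (a b : G) (n E l0 κ : ℕ) (g : G) :
    rho a b (n + 1) E l0 κ g =
      a ^ ((l0 : ℤ) - E) * (blk (b ^ κ) (a ^ E) (n + 1) * ((a ^ E) ^ (n + 1 + 1) * g)) := by
  have e3 : a ^ lamt E l0 (n + 1) = (a ^ E) ^ (n + 1 + 1) := by
    rw [lamt, if_neg (Nat.succ_ne_zero n), ← pow_mul, mul_comm]
  rw [rho, Qp_eq, e3, mul_assoc, mul_assoc]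

end words

theorem int1 (n E : ℕ) (m : ℤ) (h : -(E : ℤ) ≤ m) :
    (E : ℤ) ≤ ((n : ℤ) + 1 + 2 + 1) * E + m := by
  have h1 : (0 : ℤ) ≤ (n : ℤ) * E := by positivity
  have h2 : (0 : ℤ) ≤ (E : ℤ) := by positivity
  nlinarith

theorem int2 (n E : ℕ) (m : ℤ) (h : m ≤ (E : ℤ)) (hn : 2 ≤ n) :
    ((n : ℤ) + 1 + 2 + 1) * E + m ≤ 3 * ((n : ℤ) + 1 + 1) * E := by
  have h1 : (0 : ℤ) ≤ (n : ℤ) * E := by positivity
  have h2 : (0 : ℤ) ≤ (E : ℤ) := by positivity
  nlinarith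

theorem nat3 (n E : ℕ) : E ≤ 3 * (n + 1 + 1) * E := by
  nlinarith [Nat.zero_le (n * E)]

theorem norm : S_norm := by
  intro Γ _ W a b δ D hG B E κ R h hB hκ hR hh hE
  have hD : 1 ≤ D := hG.one.trans hG.le
  have hBr : (10 : ℝ) ^ 14 ≤ B := by exact_mod_cast hB
  have hU : 2 ≤ D + R := by linarith
  have hER : 10 * (R + 2) ≤ (E : ℝ) := by
    have e1 : (10 : ℝ) ^ 8 * 1 * (D + R) ≤ 10 ^ 8 * B * (D + R) := by
      have e2 : (1 : ℝ) ≤ B := le_trans (by norm_num) hBr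
      have e3 : (0 : ℝ) ≤ D + R := by linarith
      nlinarith
    nlinarith
  have hκ1 : κ ≤ 2 := by rcases hκ with rfl | rfl <;> norm_num
  have hlb : W.ℓ (b ^ κ) ≤ 2 := by
    rcases hκ with rfl | rfl
    · rw [pow_one, hG.lb]
      norm_num
    · rw [pow_two]
      have e1 := W.mul_le b b
      rw [hG.lb] at e1
      exact e1
  -- the bound on `E` for the new data
  have hEn : ∀ n : ℕ, n ≤ B → 10 ^ 7 * (n : ℝ) * (D + (R + 2)) ≤ E := by
    intro n hn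
    have e1 : (n : ℝ) ≤ B := by exact_mod_cast hn
    have e2 : D + (R + 2) ≤ 2 * (D + R) := by linarith
    have e3 : (0 : ℝ) ≤ n := Nat.cast_nonneg n
    have e4 : (n : ℝ) * (D + (R + 2)) ≤ B * (2 * (D + R)) :=
      mul_le_mul e1 e2 (by linarith) (by linarith)
    have e5 : 0 ≤ (B : ℝ) * (D + R) := mul_nonneg (by linarith) (by linarith)
    calc 10 ^ 7 * (n : ℝ) * (D + (R + 2)) = 10 ^ 7 * ((n : ℝ) * (D + (R + 2))) := by ring
      _ ≤ 10 ^ 7 * (B * (2 * (D + R))) := by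
          exact mul_le_mul_of_nonneg_left e4 (by norm_num)
      _ ≤ 10 ^ 8 * B * (D + R) := by nlinarith
      _ ≤ E := hE
  by_cases hg : b ^ κ * h ∈ Subgroup.zpowers a
  · -- the last connector is a power of `a`
    obtain ⟨m, hm⟩ := Subgroup.mem_zpowers_iff.mp hg
    obtain ⟨n, rfl⟩ : ∃ n : ℕ, B = n + 1 + 2 := ⟨B - 3, by omega⟩
    have hm1 : (|m| : ℝ) ≤ R + 2 := by
      have e1 := hG.pow m
      have e2 : (W.ℓ (b ^ κ * h) : ℝ) ≤ 2 + R := by
        have e3 : (W.ℓ (b ^ κ * h) : ℝ) ≤ (W.ℓ (b ^ κ) : ℝ) + W.ℓ h := by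
          exact_mod_cast W.mul_le (b ^ κ) h
        have e4 : (W.ℓ (b ^ κ) : ℝ) ≤ 2 := by exact_mod_cast hlb
        linarith
      rw [hm] at e1
      have e5 : ((W.ℓ (b ^ κ * h) : ℤ) : ℝ) = ((|m| : ℤ) : ℝ) := by rw [e1]
      rw [Int.cast_natCast, Int.cast_abs] at e5
      rw [← e5]
      linarith
    have hmE : |m| ≤ (E : ℤ) := by
      have e1 : ((|m| : ℤ) : ℝ) ≤ ((E : ℤ) : ℝ) := by
        rw [Int.cast_abs, Int.cast_natCast]
        linarith
      exact_mod_cast e1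
    rw [abs_le] at hmE
    have hl1 := int1 n E m hmE.1
    have hl2 := int2 n E m hmE.2 (by omega)
    have hl0 : (0 : ℤ) ≤ ((n : ℤ) + 1 + 2 + 1) * E + m := (Int.natCast_nonneg E).trans hl1
    obtain ⟨l0, hl⟩ := Int.eq_ofNat_of_zero_le hl0
    refine ⟨n + 1, l0, b ^ κ, a ^ (((n : ℤ) + 1 + 2) * E + m), Or.inr rfl, ?_, ?_⟩
    · refine ⟨by omega, hκ, ?_, ?_, ?_, ?_, by linarith, hEn _ (by omega)⟩
      · have e1 : (E : ℤ) ≤ l0 := by
          rw [← hl]
          exact hl1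
        exact_mod_cast e1
      · have e1 : (l0 : ℤ) ≤ 3 * ((n : ℤ) + 1 + 1) * E := by
          rw [← hl]
          exact hl2
        exact_mod_cast e1
      · intro hb
        obtain ⟨k, hk⟩ := Subgroup.mem_zpowers_iff.mp hb
        refine hG.dc κ 0 k 0 ?_ (by norm_num) ?_ ?_
        · rw [Nat.abs_cast]
          exact_mod_cast hκ1.trans (by norm_num)
        · rcases hκ with rfl | rfl <;> norm_num
        · rw [zpow_natCast, zpow_zero, zpow_zero, mul_one, mul_one, hk]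
      · have e4 : (W.ℓ (b ^ κ) : ℝ) ≤ 2 := by exact_mod_cast hlb
        linarith
    · have e1 : blk (b ^ κ) (a ^ E) (n + 1 + 2) =
          blk (b ^ κ) (a ^ E) (n + 1 + 1) * ((a ^ E) ^ (n + 1 + 2) * b ^ κ) := rfl
      have e2 : blk (b ^ κ) (a ^ E) (n + 1 + 1) =
          blk (b ^ κ) (a ^ E) (n + 1) * ((a ^ E) ^ (n + 1 + 1) * b ^ κ) := rfl
      have e3 : (l0 : ℤ) - E = ((n : ℤ) + 1 + 2) * E + m := by
        have : (l0 : ℤ) = ((n : ℤ) + 1 + 2 + 1) * E + m := hl.symm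
        rw [this]
        ring
      have e4 : (a ^ E) ^ (n + 1 + 2) = a ^ (((n : ℤ) + 1 + 2) * E) := by
        rw [← pow_mul, ← zpow_natCast]
        congr 1
        push_cast
        ring
      rw [rho_eq, ← e2, e3, e1]
      have e5 : (a ^ E) ^ (n + 1 + 2) * b ^ κ * h = a ^ (((n : ℤ) + 1 + 2) * E + m) := by
        rw [mul_assoc, ← hm, e4, ← zpow_add]
      rw [mul_assoc (blk (b ^ κ) (a ^ E) (n + 1 + 1)), e5, mul_assoc, mul_assoc, mul_inv_cancel,
        mul_one]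
  · -- the last connector is not a power of `a`
    obtain ⟨n, rfl⟩ : ∃ n : ℕ, B = n + 1 + 1 := ⟨B - 2, by omega⟩
    refine ⟨n + 1, E, b ^ κ * h, 1, Or.inl rfl, ?_, ?_⟩
    · refine ⟨by omega, hκ, le_refl _, nat3 n E, hg, ?_, by linarith, hEn _ (by omega)⟩
      · have e3 : (W.ℓ (b ^ κ * h) : ℝ) ≤ (W.ℓ (b ^ κ) : ℝ) + W.ℓ h := by
          exact_mod_cast W.mul_le (b ^ κ) h
        have e4 : (W.ℓ (b ^ κ) : ℝ) ≤ 2 := by exact_mod_cast hlb
        linarith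
    · have e1 : blk (b ^ κ) (a ^ E) (n + 1 + 1) =
          blk (b ^ κ) (a ^ E) (n + 1) * ((a ^ E) ^ (n + 1 + 1) * b ^ κ) := rfl
      rw [rho_eq, e1, sub_self, zpow_zero, one_mul, inv_one, mul_one, one_mul]
      rw [mul_assoc, mul_assoc]

end Pool.Agent.H549.QF
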